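import Mathlib
import Pool.Agent.W866.GalFilter

/-!
# A strongly non-Galvin κ-complete filter when `2 ^ <κ = κ`

Let `κ` be a regular uncountable cardinal with `2 ^ μ ≤ κ` for all `μ < κ` (this holds for every
regular uncountable `κ` under GCH). Then some proper `κ`-complete filter `F` over `κ`, containing
every club subset of `κ`, fails `Gal(F, κ, 2 ^ κ)`: it has `2 ^ κ` members such that no `κ` of them
have their intersection in `F`. In particular `F` does not have the Galvin property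
`Gal(F, κ, κ⁺)`.
-/

set_option autoImplicit false

namespace Pool.Agent.Results.MP_45cf3b_lc.StrongNonGalvin

open Cardinal Set

universe u

/-- The filter `F` over the cardinal `κ` is `κ`-complete: the intersection of fewer than `κ`
members of `F` is a member of `F`. -/
def Complete (κ : Cardinal.{u}) (F : Filter κ.ord.ToType) : Prop :=
  ∀ S : Set (Set κ.ord.ToType), #S < κ → (∀ s ∈ S, s ∈ F) → ⋂₀ S ∈ F

/-- The Galvin property `Gal(F, κ, θ)` of the filter `F` over `κ`: for every sequence of `θ`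
members of `F` there is a set of `κ` many indices with intersection in `F`. For `θ = κ⁺` this is
the Galvin property of `F`. -/
def Gal (κ θ : Cardinal.{u}) (F : Filter κ.ord.ToType) : Prop :=
  ∀ A : θ.ord.ToType → Set κ.ord.ToType, (∀ i, A i ∈ F) →
    ∃ I : Set θ.ord.ToType, #I = κ ∧ ⋂ i ∈ I, A i ∈ F

theorem result (κ : Cardinal.{u}) (hκ : κ.IsRegular) (hω : ℵ₀ < κ)
    (h2 : ∀ μ < κ, (2 : Cardinal.{u}) ^ μ ≤ κ) :
    ∃ F : Filter κ.ord.ToType,
      F.NeBot ∧ Complete κ F ∧ (∀ C, IsClub C → C ∈ F) ∧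
      ¬ Gal κ (Order.succ κ) F ∧ ¬ Gal κ (2 ^ κ) F := by
  obtain ⟨h, hh⟩ := Pool.Agent.W866.GalFilter.exists_ev_diff hκ h2
  obtain ⟨F, h1, h3, h4, A, hA, hA2⟩ := Pool.Agent.W866.GalFilter.main_gen hκ hω h hh
  have key : ∀ θ : Cardinal.{u}, θ ≤ 2 ^ κ → ¬ Gal κ θ F := by
    intro θ hθ hG
    have hle : #θ.ord.ToType ≤ #(Set κ.ord.ToType) := by
      rw [mk_set, Cardinal.mk_toType, Cardinal.mk_toType, card_ord, card_ord]
      exact hθ
    obtain ⟨e⟩ := hle
    obtain ⟨I, hI, hI2⟩ := hG (fun i => A (e i)) (fun i => hA _)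
    refine hA2 (e '' I) ?_ ?_
    · rw [mk_image_eq e.injective, hI]
    · rwa [biInter_image]
  refine ⟨F, h1, h3, h4, key _ ?_, key _ le_rfl⟩
  exact Order.succ_le_of_lt (cantor κ)

end Pool.Agent.Results.MP_45cf3b_lc.StrongNonGalvin
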